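import Pool.Agent.Lib.MP_7a2af1_al.Mg.G001

/-!
# Numbering the fibres
-/

set_option autoImplicit false

namespace Pool.Agent.Lib.MP_7a2af1_al

universe u v

/-- PROOF: every fibre `{x // f x = g}` is equivalent to `Fin μ` (`Finite.equivFinOfCardEq`); `cl x` = the number of `x` in
the fibre of `f x`. (`Equiv.sigmaFiberEquiv`.) -/
theorem exists_numbering {J : Type v} {G : Type u} [Finite J] (f : J → G) (μ : ℕ)
    (h : ∀ g, Nat.card {x : J // f x = g} = μ) :
    ∃ cl : J → Fin μ, Function.Bijective fun x => (f x, cl x) := by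
  have e : ∀ g, {x : J // f x = g} ≃ Fin μ := fun g => Finite.equivFinOfCardEq (h g)
  have key : ∀ (g : G) (x : J) (hx : f x = g), e (f x) ⟨x, rfl⟩ = e g ⟨x, hx⟩ := by
    intro g x hx
    subst hx
    rfl
  refine ⟨fun x => e (f x) ⟨x, rfl⟩, ?_, ?_⟩
  · intro x y hxy
    have h1 : f x = f y := (Prod.ext_iff.1 hxy).1
    have h2 : e (f x) ⟨x, rfl⟩ = e (f y) ⟨y, rfl⟩ := (Prod.ext_iff.1 hxy).2
    rw [key (f y) x h1] at h2
    exact congrArg Subtype.val ((e (f y)).injective h2)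
  · rintro ⟨g, i⟩
    refine ⟨((e g).symm i).1, ?_⟩
    refine Prod.ext ((e g).symm i).2 ?_
    show e (f ((e g).symm i).1) ⟨((e g).symm i).1, rfl⟩ = i
    rw [key g _ ((e g).symm i).2]
    exact (e g).apply_symm_apply i

end Pool.Agent.Lib.MP_7a2af1_al
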