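import Mathlib

/-!
# Minimal length logarithmic signatures: definitions
-/

set_option autoImplicit false

namespace Pool.Agent.Lib.MP_7a2af1_al

universe u v

/-- The group `G` has a minimal length logarithmic signature (the same words as in the problem). -/
def HasMLS (G : Type u) [Group G] : Prop :=
  ∃ blocks : List (List G),
    (blocks.map List.length).sum = (Nat.card G).factorization.sum (fun p k => p * k) ∧
    ∀ g : G, ∃! c : (i : Fin blocks.length) → Fin (blocks.get i).length,
      (List.ofFn (fun i => (blocks.get i).get (c i))).prod = g

/-- A block: `p` elements `f 0, ..., f (p - 1)` (repetitions allowed). -/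
structure Blk (G : Type u) where
  /-- the length -/
  p : ℕ
  /-- the elements -/
  f : Fin p → G

/-- The choices of one index for every block of a list. -/
def Idx {G : Type u} : List (Blk G) → Type
  | [] => Unit
  | B :: L => Fin B.p × Idx L

/-- The product of the chosen elements. -/
def ev {G : Type u} [Monoid G] : (L : List (Blk G)) → Idx L → G
  | [], _ => 1
  | B :: L, x => B.f x.1 * ev L x.2

/-- All blocks have prime length. -/
def PrimeBlks {G : Type u} (L : List (Blk G)) : Prop := ∀ B ∈ L, B.p.Prime

/-- Every element is exactly once a product, blocks of prime length. -/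
def HasP (G : Type u) [Monoid G] : Prop :=
  ∃ L : List (Blk G), PrimeBlks L ∧ Function.Bijective (ev L)

/-- Every element is exactly `μ` times a product, blocks of prime length. -/
def HasU (G : Type u) [Monoid G] : Prop :=
  ∃ L : List (Blk G), PrimeBlks L ∧ ∃ μ : ℕ, 1 ≤ μ ∧
    ∀ g : G, Nat.card {x : Idx L // ev L x = g} = μ

/-- The blocks mapped by a function. -/
def mapB {G : Type u} {H : Type v} (φ : G → H) (L : List (Blk G)) : List (Blk H) :=
  L.map fun B => ⟨B.p, fun i => φ (B.f i)⟩

instance instFiniteIdx {G : Type u} (L : List (Blk G)) : Finite (Idx L) := by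
  induction L with
  | nil => exact inferInstanceAs (Finite Unit)
  | cons B L ih => exact inferInstanceAs (Finite (Fin B.p × Idx L))

theorem ev_nil {G : Type u} [Monoid G] (x : Idx ([] : List (Blk G))) : ev [] x = 1 := rfl

theorem ev_cons {G : Type u} [Monoid G] (B : Blk G) (L : List (Blk G)) (i : Fin B.p) (x : Idx L) :
    ev (B :: L) (i, x) = B.f i * ev L x := rfl

end Pool.Agent.Lib.MP_7a2af1_al
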