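import Pool.Agent.Lib.MP_7a2af1_al.Mg.G001
import Pool.Agent.Lib.MP_7a2af1_al.Mg.G005

/-!
# All finite groups
-/

set_option autoImplicit false

open MonoidAlgebra

namespace Pool.Agent.Lib.MP_7a2af1_al

universe u

/-- PROOF. Strong induction on `Nat.card G` (for all groups of this order, in a fixed universe). Trivial: `hasU_of_subsingleton`. A normal subgroup `N ≠ ⊥, ⊤`: `hasU_of_normal`. Otherwise `G` is simple; commutative:
prime order (`IsSimpleGroup` + commutative, `hasU_of_prime_card`); not commutative: `hasU_of_simple`. -/
theorem hasU_all (G : Type u) [Group G] [Finite G] : HasU G := by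
  suffices H : ∀ (n : ℕ) (G : Type u) [Group G] [Finite G], Nat.card G = n → HasU G from H _ G rfl
  intro n
  induction n using Nat.strong_induction_on with
  | _ n ih =>
    intro G _ _ hn
    have hlt : ∀ P : Subgroup G, P ≠ ⊤ → Nat.card P < n := by
      intro P hP
      rw [← hn]
      refine lt_of_le_of_ne (Subgroup.card_le_card_group P) fun h => hP ?_
      exact Subgroup.eq_top_of_card_eq P h
    rcases subsingleton_or_nontrivial G with h | h
    · exact hasU_of_subsingleton G
    by_cases hN : ∃ N : Subgroup G, N.Normal ∧ N ≠ ⊥ ∧ N ≠ ⊤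
    · obtain ⟨N, hNn, h1, h2⟩ := hN
      refine hasU_of_normal G N (ih _ (hlt N h2) N rfl) (ih _ ?_ (G ⧸ N) rfl)
      rw [← hn]
      have h3 := Subgroup.card_eq_card_quotient_mul_card_subgroup N
      have h4 : 1 < Nat.card N := by
        rcases lt_or_ge 1 (Nat.card N) with h4 | h4
        · exact h4
        · exact absurd (Subgroup.eq_bot_of_card_le N h4) h1
      have h5 : 0 < Nat.card (G ⧸ N) := Nat.card_pos
      rw [h3]
      exact lt_mul_of_one_lt_right h5 h4
    · haveI : IsSimpleGroup G :=
        { eq_bot_or_eq_top_of_normal := fun N hN' => by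
            by_contra hcon
            rw [not_or] at hcon
            exact hN ⟨N, hN', hcon.1, hcon.2⟩ }
      by_cases hc : ∀ a b : G, a * b = b * a
      · letI : CommGroup G := { (inferInstance : Group G) with mul_comm := hc }
        exact hasU_of_prime_card G IsSimpleGroup.prime_card
      · exact hasU_of_simple G hc (fun P hP => ih _ (hlt P hP) P rfl)

end Pool.Agent.Lib.MP_7a2af1_al
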