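import Pool.Agent.Lib.MP_7a2af1_al.Mg.G006
import Pool.Agent.Lib.MP_7a2af1_al.ML.Z1d

/-!
# The final assembly
-/

set_option autoImplicit false

namespace Pool.Agent.Lib.MP_7a2af1_al

universe u

/-- A subgroup of a symmetric group which contains the alternating group is one of the two. -/
theorem eq_or_eq_top (n : ℕ) (H : Subgroup (Equiv.Perm (Fin n)))
    (hH : alternatingGroup (Fin n) ≤ H) : H = alternatingGroup (Fin n) ∨ H = ⊤ := by
  by_cases h : H ≤ alternatingGroup (Fin n)
  · exact Or.inl (le_antisymm h hH)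
  · right
    obtain ⟨τ, hτ, hτ'⟩ := SetLike.not_le_iff_exists.mp h
    rw [eq_top_iff]
    intro σ _
    have h1 : Equiv.Perm.sign τ = -1 := by
      rcases Int.units_eq_one_or (Equiv.Perm.sign τ) with h1 | h1
      · exact absurd (Equiv.Perm.mem_alternatingGroup.mpr h1) hτ'
      · exact h1
    rcases Int.units_eq_one_or (Equiv.Perm.sign σ) with h2 | h2
    · exact hH (Equiv.Perm.mem_alternatingGroup.mpr h2)
    · have h3 : σ * τ ∈ alternatingGroup (Fin n) := by
        rw [Equiv.Perm.mem_alternatingGroup, Equiv.Perm.sign_mul, h1, h2]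
        decide
      have h4 := H.mul_mem (hH h3) (H.inv_mem hτ)
      rwa [mul_assoc, mul_inv_cancel, mul_one] at h4

/-- The stable theorem. -/
theorem stable_hasP (G : Type u) [Group G] [Finite G] :
    ∃ n₀ : ℕ, ∀ n, n₀ ≤ n → ∀ H : Subgroup (Equiv.Perm (Fin n)),
      alternatingGroup (Fin n) ≤ H → HasP (G × H) := by
  obtain ⟨n₁, h₁⟩ := hasP_of_hasU G (hasU_all G)
  obtain ⟨n₂, h3, h₂⟩ := hasP_of_hasU_alt G (hasU_all G)
  have H₁ : ∀ n, n₁ ≤ n → HasP (G × Equiv.Perm (Fin n)) := by
    intro n hn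
    induction n, hn using Nat.le_induction with
    | base => exact h₁
    | succ n _ ih => exact hasP_step G n ih
  have H₂ : ∀ n, n₂ ≤ n → HasP (G × alternatingGroup (Fin n)) := by
    intro n hn
    induction n, hn using Nat.le_induction with
    | base => exact h₂
    | succ n hn ih => exact hasP_alt_step G n (h3.trans hn) ih
  refine ⟨max n₁ n₂, fun n hn H hH => ?_⟩
  rcases eq_or_eq_top n H hH with h | h
  · subst h
    exact H₂ n ((le_max_right _ _).trans hn)
  · subst h
    exact (H₁ n ((le_max_left _ _).trans hn)).congr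
      ((MulEquiv.refl G).prodCongr Subgroup.topEquiv.symm)

end Pool.Agent.Lib.MP_7a2af1_al
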